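import Pool.Agent.NH15.UT.U1
import Pool.Agent.H295R3.Hoheisel

set_option autoImplicit false

/-! Short intervals and an elementary probabilistic lemma. -/

namespace Pool.Agent.NH15.AC

open Finset Filter
open Pool.Agent.W301.SS (pn pn_mono pn_le pn_eq ev_L ev_log)
open Pool.Agent.NH15.UT (HT second)

/-- few hits -/
lemma few_gen {ι : Type*} [Fintype ι] [DecidableEq ι] (D : ι → Finset ℕ) (I : Finset ι) (G : ι → Finset ℕ)
    (p : ℝ) (hG : ∀ i ∈ I, G i ⊆ D i ∧ p * (D i).card ≤ (G i).card) :
    (((Fintype.piFinset D).filter (fun b => ((I.filter (fun i => b i ∈ G i)).card : ℝ) ≤ I.card * p / 4)).card : ℝ) ≤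
      (∏ i, ((D i).card : ℝ)) * Real.exp (-(I.card * p / 4)) := by
  classical
  obtain ⟨f, hf⟩ : ∃ f : ι → ℕ → ℝ, f = fun i b => if i ∈ I then Real.exp (-(if b ∈ G i then (1 : ℝ) else 0)) else 1 :=
    ⟨_, rfl⟩
  have hf0 : ∀ i b, 0 ≤ f i b := by
    intro i b
    rw [hf]
    simp only
    split_ifs <;> positivity
  have h1 : ∀ i, ∑ b ∈ D i, f i b ≤ (D i).card * (if i ∈ I then Real.exp (-(p / 2)) else 1) := by
    intro i
    by_cases hi : i ∈ I
    · rw [if_pos hi, hf]
      simp only [if_pos hi]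
      obtain ⟨h2, h3⟩ := hG i hi
      have e1 : ∀ b ∈ D i, Real.exp (-(if b ∈ G i then (1 : ℝ) else 0)) ≤
          1 - (1 / 2 + 1 / 8) * (if b ∈ G i then (1 : ℝ) else 0) := by
        intro b _
        split_ifs
        · have h2 : Real.exp (-1) ≤ 3 / 8 := by
            rw [Real.exp_neg, inv_le_comm₀ (Real.exp_pos _) (by norm_num)]
            have := Real.exp_one_gt_d9
            norm_num
            linarith
          linarith
        · simp
      refine (sum_le_sum e1).trans ?_
      have e2 : ∑ b ∈ D i, (if b ∈ G i then (1 : ℝ) else 0) = (G i).card := by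
        rw [← sum_filter, sum_const, nsmul_eq_mul, mul_one]
        congr 2
        ext b
        rw [mem_filter]
        constructor
        · exact fun h => h.2
        · exact fun h => ⟨h2 h, h⟩
      rw [sum_sub_distrib, ← mul_sum, e2, sum_const, nsmul_eq_mul, mul_one]
      have h4 : 1 - p / 2 ≤ Real.exp (-(p / 2)) := by
        have := Real.add_one_le_exp (-(p / 2))
        linarith
      have h5 := mul_le_mul_of_nonneg_left h4 (Nat.cast_nonneg (D i).card : (0 : ℝ) ≤ (D i).card)
      have h6 : (0 : ℝ) ≤ (G i).card := Nat.cast_nonneg _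
      linarith
    · rw [if_neg hi, hf]
      simp only [if_neg hi]
      rw [sum_const, nsmul_eq_mul]
  have h2 : ∑ b ∈ Fintype.piFinset D, ∏ i, f i (b i) ≤ (∏ i, ((D i).card : ℝ)) * Real.exp (-(I.card * p / 2)) := by
    rw [← prod_univ_sum]
    calc ∏ i, ∑ b ∈ D i, f i b ≤ ∏ i, ((D i).card * (if i ∈ I then Real.exp (-(p / 2)) else 1)) := by
          apply Finset.prod_le_prod
          · intro i _
            exact sum_nonneg fun b _ => hf0 i b
          · intro i _
            exact h1 i
      _ = (∏ i, ((D i).card : ℝ)) * ∏ i, (if i ∈ I then Real.exp (-(p / 2)) else 1) := prod_mul_distrib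
      _ = _ := by
          congr 1
          rw [← prod_filter, prod_const, ← Real.exp_nat_mul]
          have : (univ.filter fun i => i ∈ I) = I := by ext i; simp
          rw [this]
          congr 1
          ring
  have h3 : (((Fintype.piFinset D).filter (fun b => ((I.filter (fun i => b i ∈ G i)).card : ℝ) ≤ I.card * p / 4)).card : ℝ) *
      Real.exp (-(I.card * p / 4)) ≤ ∑ b ∈ Fintype.piFinset D, ∏ i, f i (b i) := by
    rw [← nsmul_eq_mul, ← sum_const]
    calc _ ≤ ∑ b ∈ (Fintype.piFinset D).filter (fun b => ((I.filter (fun i => b i ∈ G i)).card : ℝ) ≤ I.card * p / 4),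
          ∏ i, f i (b i) := by
          apply sum_le_sum
          intro b hb
          rw [mem_filter] at hb
          have e1 : ∏ i, f i (b i) = Real.exp (-((I.filter (fun i => b i ∈ G i)).card : ℝ)) := by
            rw [hf]
            simp only
            rw [← prod_filter]
            have : (univ.filter fun i => i ∈ I) = I := by ext i; simp
            rw [this, ← Real.exp_sum, sum_neg_distrib, ← sum_filter, sum_const, nsmul_eq_mul, mul_one]
          rw [e1]
          apply Real.exp_le_exp.2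
          linarith [hb.2]
      _ ≤ _ := by
          apply sum_le_sum_of_subset_of_nonneg (filter_subset _ _)
          intro b _ _
          exact prod_nonneg fun i _ => hf0 i _
  have h4 := h3.trans h2
  have h5 : Real.exp (-(I.card * p / 2)) = Real.exp (-(I.card * p / 4)) * Real.exp (-(I.card * p / 4)) := by
    rw [← Real.exp_add]
    congr 1
    ring
  rw [h5, ← mul_assoc] at h4
  exact le_of_mul_le_mul_right h4 (Real.exp_pos _)

/-- the choice -/
lemma exists_tuple {ι : Type*} [Fintype ι] [DecidableEq ι] (D : ι → Finset ℕ) (hD : ∀ i, (D i).Nonempty) (T : Finset ℕ)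
    (I : ℕ → Finset ι) (G : ℕ → ι → Finset ℕ) (p : ℕ → ℝ)
    (hG : ∀ n ∈ T, ∀ i ∈ I n, G n i ⊆ D i ∧ p n * (D i).card ≤ (G n i).card)
    (hsum : ∑ n ∈ T, Real.exp (-((I n).card * p n / 4)) < 1) :
    ∃ b : ι → ℕ, (∀ i, b i ∈ D i) ∧ ∀ n ∈ T, (I n).card * p n / 4 < (((I n).filter (fun i => b i ∈ G n i)).card : ℝ) := by
  classical
  by_contra hcon
  push Not at hcon
  have hP : 0 < ∏ i, ((D i).card : ℝ) := prod_pos fun i _ => by exact_mod_cast card_pos.2 (hD i)
  have h1 : Fintype.piFinset D ⊆ T.biUnion fun n =>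
      (Fintype.piFinset D).filter (fun b => (((I n).filter (fun i => b i ∈ G n i)).card : ℝ) ≤ (I n).card * p n / 4) := by
    intro b hb
    obtain ⟨n, hn, h2⟩ := hcon b (Fintype.mem_piFinset.1 hb)
    rw [mem_biUnion]
    exact ⟨n, hn, mem_filter.2 ⟨hb, h2⟩⟩
  have h2 : ((Fintype.piFinset D).card : ℝ) ≤ ∑ n ∈ T, (((Fintype.piFinset D).filter
      (fun b => (((I n).filter (fun i => b i ∈ G n i)).card : ℝ) ≤ (I n).card * p n / 4)).card : ℝ) := by
    exact_mod_cast (card_le_card h1).trans card_biUnion_le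
  have h3 : ((Fintype.piFinset D).card : ℝ) = ∏ i, ((D i).card : ℝ) := by
    rw [Fintype.card_piFinset]
    push_cast
    rfl
  rw [h3] at h2
  have h4 : ∑ n ∈ T, (((Fintype.piFinset D).filter
      (fun b => (((I n).filter (fun i => b i ∈ G n i)).card : ℝ) ≤ (I n).card * p n / 4)).card : ℝ) ≤
      (∏ i, ((D i).card : ℝ)) * ∑ n ∈ T, Real.exp (-((I n).card * p n / 4)) := by
    rw [mul_sum]
    apply sum_le_sum
    intro n hn
    exact few_gen D (I n) (G n) (p n) (hG n hn)
  have h5 := mul_lt_mul_of_pos_left hsum hP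
  linarith

/-- hits by the shifts in a short interval -/
lemma hit_short : ∃ κ c : ℝ, 0 < κ ∧ κ < 1 ∧ 0 < c ∧ ∀ᶠ n : ℕ in atTop, ∀ A H y : ℕ, (n : ℝ) ^ (1 - κ) ≤ H →
    2 * (A + H) + 2 ≤ n → (y : ℝ) ≤ Real.log n →
    c * (y / Real.log n) * H ≤ (((Ioc A (A + H)).filter (fun r => HT y (n - r))).card : ℝ) := by
  obtain ⟨κ, η, hκ, hκ1, hη, X₀, hX₀, hho⟩ := Pool.Agent.H295R3.D.hoheisel
  obtain ⟨C, hC, hsec⟩ := second
  obtain ⟨N0, hN0⟩ := eventually_atTop.1 hsec
  have h1κ : 0 < 1 - κ := by linarith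
  refine ⟨κ, η ^ 2 * (1 - κ) ^ 2 / (2 * C), hκ, hκ1, by positivity, ?_⟩
  have hpow : ∀ᶠ n : ℕ in atTop, (N0 : ℝ) ≤ (n : ℝ) ^ (1 - κ) :=
    ((tendsto_rpow_atTop h1κ).comp tendsto_natCast_atTop_atTop).eventually_ge_atTop _
  filter_upwards [hpow, ev_L 1, ev_log 1 1 (1 - κ) h1κ, eventually_ge_atTop (2 * X₀ + 16)] with n h1 hL hLn hn A H y hH hAH hy
  obtain ⟨L, hLd⟩ : ∃ L, L = Real.log (n : ℝ) := ⟨_, rfl⟩
  rw [← hLd] at hL hLn hy ⊢
  rw [pow_one] at hLn
  have hL0 : 0 < L := by linarith
  have hyH : y ≤ H := by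
    have : (y : ℝ) ≤ H := by linarith
    exact_mod_cast this
  have hn0 : (0 : ℝ) < n := by exact_mod_cast (by omega : 0 < n)
  have hHpos : (0 : ℝ) < H := lt_of_lt_of_le (by positivity) hH
  have hH1 : 1 ≤ H := by exact_mod_cast hHpos
  have hHN : N0 ≤ H := by exact_mod_cast h1.trans hH
  obtain ⟨n', hn'⟩ : ∃ n', n' = n - A - H - 1 := ⟨_, rfl⟩
  -- the reflection
  have hcard : ((Ioc A (A + H)).filter (fun r => HT y (n - r))).card =
      ((Icc 1 H).filter (fun b => HT y (n' + b))).card := by
    apply card_bij' (fun r _ => A + H + 1 - r) (fun b _ => A + H + 1 - b)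
    · intro r hr
      rw [mem_filter, mem_Ioc] at hr
      rw [mem_filter, mem_Icc]
      have e : n' + (A + H + 1 - r) = n - r := by omega
      rw [e]
      exact ⟨by omega, hr.2⟩
    · intro b hb
      rw [mem_filter, mem_Icc] at hb
      rw [mem_filter, mem_Ioc]
      have e : n - (A + H + 1 - b) = n' + b := by omega
      rw [e]
      exact ⟨by omega, hb.2⟩
    · intro r hr
      rw [mem_filter, mem_Ioc] at hr
      omega
    · intro b hb
      rw [mem_filter, mem_Icc] at hb
      omega
  rw [hcard]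
  obtain ⟨F, hF⟩ : ∃ F : Finset ℕ, F = (Icc 1 H).filter (fun b => HT y (n' + b)) := ⟨_, rfl⟩
  rw [← hF]
  -- first moment
  have hfirst : (y : ℝ) * (η * H / L) ≤ ∑ b ∈ Icc 1 H, (pn (n' + b) y : ℝ) := by
    have e : ∑ b ∈ Icc 1 H, (pn (n' + b) y : ℝ) =
        ∑ h ∈ Ioc 0 y, (((Icc 1 H).filter (fun b => (n' + b + h).Prime)).card : ℝ) := by
      simp_rw [pn_eq]
      rw [sum_comm]
      apply sum_congr rfl
      intro h _
      rw [← sum_filter, sum_const, nsmul_eq_mul, mul_one]
    rw [e]
    calc (y : ℝ) * (η * H / L) = ∑ _h ∈ Ioc 0 y, η * H / L := by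
          rw [sum_const, Nat.card_Ioc, nsmul_eq_mul, Nat.sub_zero]
      _ ≤ _ := by
          apply sum_le_sum
          intro h hh
          rw [mem_Ioc] at hh
          have hyn : h ≤ A + H + 1 := by omega
          have h3 := hho (n' + h) H (by omega) (by
            refine le_trans ?_ hH
            apply Real.rpow_le_rpow (Nat.cast_nonneg _) _ h1κ.le
            exact_mod_cast (by omega : n' + h ≤ n)) (by omega)
          have h4 : ((Icc 1 H).filter (fun b => (n' + b + h).Prime)).card =
              ((Ioc (n' + h) (n' + h + H)).filter Nat.Prime).card := by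
            apply card_bij' (fun b _ => n' + h + b) (fun p _ => p - (n' + h))
            · intro b hb
              rw [mem_filter, mem_Icc] at hb
              rw [mem_filter, mem_Ioc]
              have e : n' + b + h = n' + h + b := by ring
              rw [e] at hb
              exact ⟨by omega, hb.2⟩
            · intro p hp
              rw [mem_filter, mem_Ioc] at hp
              rw [mem_filter, mem_Icc]
              have e : n' + (p - (n' + h)) + h = p := by omega
              rw [e]
              exact ⟨by omega, hp.2⟩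
            · intro b _
              omega
            · intro p hp
              rw [mem_filter, mem_Ioc] at hp
              omega
          rw [h4]
          refine le_trans ?_ h3
          apply div_le_div_of_nonneg_left (by positivity)
          · apply Real.log_pos
            have : 1 < n' + h := by omega
            exact_mod_cast this
          · rw [hLd]
            apply Real.log_le_log
            · exact_mod_cast (by omega : 0 < n' + h)
            · exact_mod_cast (by omega : n' + h ≤ n)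
  obtain ⟨u, hu⟩ : ∃ u : ℝ, u = y / L := ⟨_, rfl⟩
  have hu0 : 0 ≤ u := by rw [hu]; positivity
  have hu1 : u ≤ 1 := by rw [hu, div_le_one hL0]; exact hy
  have hlogH : (1 - κ) * L ≤ Real.log H := by
    rw [hLd, ← Real.log_rpow hn0]
    exact Real.log_le_log (by positivity) hH
  have h1κL : 0 < (1 - κ) * L := by positivity
  have hsecond : ∑ b ∈ Icc 1 H, (pn (n' + b) y : ℝ) ^ 2 ≤ 2 * C * H * u / (1 - κ) ^ 2 := by
    refine (hN0 H hHN n' y).trans ?_
    have h2 : (y : ℝ) / Real.log H ≤ u / (1 - κ) := by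
      calc (y : ℝ) / Real.log H ≤ y / ((1 - κ) * L) := div_le_div_of_nonneg_left (Nat.cast_nonneg _) h1κL hlogH
        _ = _ := by
            rw [hu]
            field_simp
    have h3 : (0 : ℝ) ≤ y / Real.log H := div_nonneg (Nat.cast_nonneg _) (by linarith)
    have h4 : (y / Real.log H) ^ 2 ≤ (u / (1 - κ)) ^ 2 := pow_le_pow_left₀ h3 h2 2
    have h5 : u / (1 - κ) ≤ u / (1 - κ) ^ 2 := by
      apply div_le_div_of_nonneg_left hu0 (by positivity)
      rw [sq]
      exact mul_le_of_le_one_left h1κ.le (by linarith)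
    have h6 : (u / (1 - κ)) ^ 2 ≤ u / (1 - κ) ^ 2 := by
      rw [div_pow]
      apply div_le_div_of_nonneg_right _ (by positivity)
      rw [sq]
      exact mul_le_of_le_one_left hu0 hu1
    calc C * H * (y / Real.log H + (y / Real.log H) ^ 2) ≤ C * H * (u / (1 - κ) ^ 2 + u / (1 - κ) ^ 2) := by
          apply mul_le_mul_of_nonneg_left _ (by positivity)
          linarith
      _ = _ := by ring
  have e1 : ∑ b ∈ Icc 1 H, (pn (n' + b) y : ℝ) = ∑ b ∈ F, (pn (n' + b) y : ℝ) := by
    rw [hF]
    symm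
    apply sum_subset (filter_subset _ _)
    intro b hb hb2
    rw [mem_filter, not_and] at hb2
    have := hb2 hb
    unfold HT at this
    have : pn (n' + b) y = 0 := by omega
    rw [this, Nat.cast_zero]
  have e2 : (∑ b ∈ F, (pn (n' + b) y : ℝ)) ^ 2 ≤ F.card * ∑ b ∈ F, (pn (n' + b) y : ℝ) ^ 2 :=
    sq_sum_le_card_mul_sum_sq
  have e3 : ∑ b ∈ F, (pn (n' + b) y : ℝ) ^ 2 ≤ 2 * C * H * u / (1 - κ) ^ 2 := by
    refine le_trans ?_ hsecond
    apply sum_le_sum_of_subset_of_nonneg
    · rw [hF]; exact filter_subset _ _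
    · intro _ _ _; positivity
  rw [e1] at hfirst
  have e5 : (y : ℝ) * (η * H / L) = u * η * H := by
    rw [hu]
    ring
  rw [e5] at hfirst
  rw [← hu]
  rcases hu0.eq_or_lt with h0 | h0
  · rw [← h0, mul_zero, zero_mul]
    exact Nat.cast_nonneg _
  have e6 : (u * η * H) ^ 2 ≤ F.card * (2 * C * H * u / (1 - κ) ^ 2) := by
    calc (u * η * H) ^ 2 ≤ (∑ b ∈ F, (pn (n' + b) y : ℝ)) ^ 2 := pow_le_pow_left₀ (by positivity) hfirst 2
      _ ≤ _ := e2.trans (mul_le_mul_of_nonneg_left e3 (Nat.cast_nonneg _))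
  have e7 : (u * η * H) ^ 2 = (η ^ 2 * (1 - κ) ^ 2 / (2 * C) * u * H) * (2 * C * H * u / (1 - κ) ^ 2) := by
    field_simp
  rw [e7] at e6
  exact le_of_mul_le_mul_right e6 (by positivity)

end Pool.Agent.NH15.AC
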