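import Pool.Agent.NH15.AC.A1

set_option autoImplicit false

/-! The shifts for the integers between `2 ^ K` and `2 ^ (2 K)`. -/

namespace Pool.Agent.NH15.AC

open Finset Filter
open Pool.Agent.W301.SS (pn pn_mono pn_le pn_eq ev_L ev_log)
open Pool.Agent.NH15.UT (HT)

/-- the length of the interval -/
noncomputable def yy (β : ℝ) (n : ℕ) : ℕ := ⌊Real.log n ^ β⌋₊

/-- the intervals for the shifts -/
def DD (m : ℕ) (q : ℕ × ℕ) : Finset ℕ :=
  if 1 ≤ 2 ^ q.1 / m then Ioc (2 ^ q.1 + q.2 * (2 ^ q.1 / m)) (2 ^ q.1 + q.2 * (2 ^ q.1 / m) + 2 ^ q.1 / m) else {1}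

lemma DD_ne (m : ℕ) (q : ℕ × ℕ) : (DD m q).Nonempty := by
  unfold DD
  split_ifs with h
  · rw [nonempty_Ioc]
    omega
  · exact singleton_nonempty _

lemma DD_bd {m : ℕ} {q : ℕ × ℕ} (_h : 1 ≤ 2 ^ q.1 / m) (hq : q.2 < m) :
    2 ^ q.1 + q.2 * (2 ^ q.1 / m) + 2 ^ q.1 / m ≤ 2 ^ (q.1 + 1) := by
  have h1 : (q.2 + 1) * (2 ^ q.1 / m) ≤ m * (2 ^ q.1 / m) := Nat.mul_le_mul_right _ hq
  have h2 : m * (2 ^ q.1 / m) ≤ 2 ^ q.1 := Nat.mul_div_le _ _
  have h3 : (q.2 + 1) * (2 ^ q.1 / m) = q.2 * (2 ^ q.1 / m) + 2 ^ q.1 / m := by ring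
  rw [pow_succ]
  omega

lemma DD_inj {m : ℕ} {q q' : ℕ × ℕ} (h : 1 ≤ 2 ^ q.1 / m) (h' : 1 ≤ 2 ^ q'.1 / m) (hq : q.2 < m) (hq' : q'.2 < m)
    {r : ℕ} (hr : r ∈ DD m q) (hr' : r ∈ DD m q') : q = q' := by
  have b1 := DD_bd h hq
  have b2 := DD_bd h' hq'
  unfold DD at hr hr'
  rw [if_pos h, mem_Ioc] at hr
  rw [if_pos h', mem_Ioc] at hr'
  have e1 : q.1 = q'.1 := by
    rcases lt_trichotomy q.1 q'.1 with g | g | g
    · have : 2 ^ (q.1 + 1) ≤ 2 ^ q'.1 := Nat.pow_le_pow_right (by norm_num) g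
      omega
    · exact g
    · have : 2 ^ (q'.1 + 1) ≤ 2 ^ q.1 := Nat.pow_le_pow_right (by norm_num) g
      omega
  have e2 : q.2 = q'.2 := by
    rw [e1] at hr
    obtain ⟨H, hH⟩ : ∃ H, H = 2 ^ q'.1 / m := ⟨_, rfl⟩
    rw [← hH] at hr hr'
    rcases lt_trichotomy q.2 q'.2 with g | g | g
    · have h1 : (q.2 + 1) * H ≤ q'.2 * H := Nat.mul_le_mul_right _ g
      have h2 : (q.2 + 1) * H = q.2 * H + H := by ring
      omega
    · exact g
    · have h1 : (q'.2 + 1) * H ≤ q.2 * H := Nat.mul_le_mul_right _ g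
      have h2 : (q'.2 + 1) * H = q'.2 * H + H := by ring
      omega
  exact Prod.ext e1 e2

theorem scale (β : ℝ) (hβ : 0 ≤ β) (hβ1 : β ≤ 1) : ∃ C : ℝ, 0 < C ∧ ∀ᶠ K : ℕ in atTop, ∃ R : Finset ℕ,
    (R.card : ℝ) ≤ C * (K : ℝ) ^ (2 - β) ∧ (∀ r ∈ R, 2 ^ K ≤ r ^ 2) ∧
    ∀ n : ℕ, 2 ^ K ≤ n → n ≤ 2 ^ (2 * K) → Real.log n ≤ ((R.filter (fun r => r < n ∧ HT (yy β n) (n - r))).card : ℝ) := by
  classical
  obtain ⟨κ, c, hκ, hκ1, hc, hshort⟩ := hit_short
  obtain ⟨C, hC⟩ : ∃ C : ℝ, C = 192 / (κ * c) := ⟨_, rfl⟩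
  have hC0 : 0 < C := by rw [hC]; positivity
  refine ⟨2 * (C + 1), by positivity, ?_⟩
  obtain ⟨n0, hn0⟩ := eventually_atTop.1 (hshort.and (((ev_L 16).and (ev_log 1 (16 * (C + 1)) (κ / 2) (by positivity))).and
    (eventually_ge_atTop 16)))
  have ht : Tendsto (fun K : ℕ => 2 ^ K) atTop atTop := tendsto_pow_atTop_atTop_of_one_lt (by norm_num)
  filter_upwards [ht.eventually (eventually_ge_atTop n0), eventually_ge_atTop (⌈16 / κ⌉₊ + 16)] with K hK0 hK
  have hK16 : 16 / κ ≤ K := by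
    have h3 : (⌈16 / κ⌉₊ : ℝ) ≤ K := by exact_mod_cast (by omega : ⌈16 / κ⌉₊ ≤ K)
    exact (Nat.le_ceil _).trans h3
  rw [div_le_iff₀ hκ] at hK16
  have hK1 : (1 : ℝ) ≤ K := by exact_mod_cast (by omega : 1 ≤ K)
  have hK0' : (0 : ℝ) < K := by linarith
  obtain ⟨m, hm⟩ : ∃ m : ℕ, m = ⌈C * (K : ℝ) ^ (1 - β)⌉₊ := ⟨_, rfl⟩
  have hKβ : 1 ≤ (K : ℝ) ^ (1 - β) := Real.one_le_rpow hK1 (by linarith)
  have hm1 : C * (K : ℝ) ^ (1 - β) ≤ m := by rw [hm]; exact Nat.le_ceil _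
  have hm2 : (m : ℝ) ≤ (C + 1) * (K : ℝ) ^ (1 - β) := by
    have := (Nat.ceil_lt_add_one (show 0 ≤ C * (K : ℝ) ^ (1 - β) by positivity)).le
    rw [← hm] at this
    linarith
  have hm0 : 1 ≤ m := by
    have : (0 : ℝ) < m := lt_of_lt_of_le (by positivity) hm1
    exact_mod_cast this
  have hmK : (m : ℝ) ≤ (C + 1) * K := by
    refine hm2.trans (mul_le_mul_of_nonneg_left ?_ (by positivity))
    calc (K : ℝ) ^ (1 - β) ≤ (K : ℝ) ^ (1 : ℝ) := Real.rpow_le_rpow_of_exponent_le hK1 (by linarith)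
      _ = K := Real.rpow_one _
  -- the facts for one `n`
  obtain ⟨I, hI⟩ : ∃ I : ℕ → Finset (Fin (2 * K) × Fin m), I = fun n : ℕ =>
      univ.filter (fun q => (n : ℝ) ^ (1 - κ / 2) ≤ 2 ^ (q.1 : ℕ) ∧ (q.1 : ℕ) + 3 ≤ Nat.log 2 n) := ⟨_, rfl⟩
  have hone : ∀ n ∈ Icc (2 ^ K : ℕ) (2 ^ (2 * K)), (3 * Real.log n ≤ (I n).card * (c * (yy β n / Real.log n)) / 4) ∧
      ∀ q ∈ I n, 1 ≤ 2 ^ (q.1 : ℕ) / m ∧ K ≤ 2 * (q.1 : ℕ) ∧ 2 ^ ((q.1 : ℕ) + 1) < n ∧
        c * (yy β n / Real.log n) * (DD m (q.1, q.2)).card ≤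
          (((DD m (q.1, q.2)).filter (fun r => HT (yy β n) (n - r))).card : ℝ) := by
    intro n hn
    rw [mem_Icc] at hn
    obtain ⟨h1, ⟨h2, h3⟩, h4⟩ := hn0 n (hK0.trans hn.1)
    obtain ⟨L, hLd⟩ : ∃ L, L = Real.log (n : ℝ) := ⟨_, rfl⟩
    rw [← hLd] at h1 h2 h3 ⊢
    rw [pow_one] at h3
    have hL0 : 0 < L := by linarith
    have hn0' : (0 : ℝ) < n := by exact_mod_cast (by omega : 0 < n)
    obtain ⟨ℓ, hℓ⟩ : ∃ ℓ, ℓ = Nat.log 2 n := ⟨_, rfl⟩
    have hℓ1 : 2 ^ ℓ ≤ n := by rw [hℓ]; exact Nat.pow_log_le_self 2 (by omega)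
    have hℓ2 : n < 2 ^ (ℓ + 1) := by rw [hℓ]; exact Nat.lt_pow_succ_log_self (by norm_num) n
    have hℓK : K ≤ ℓ := by
      rw [hℓ]
      exact Nat.le_log_of_pow_le (by norm_num) hn.1
    have hℓK2 : ℓ ≤ 2 * K := by
      by_contra hcon
      have : 2 ^ (2 * K + 1) ≤ 2 ^ ℓ := Nat.pow_le_pow_right (by norm_num) (by omega)
      rw [pow_succ] at this
      have : 0 < 2 ^ (2 * K) := by positivity
      omega
    have hlog2 : 0 < Real.log 2 := Real.log_pos (by norm_num)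
    have hlog2' : Real.log 2 ≤ 7 / 10 := by
      have := Real.log_two_lt_d9
      linarith
    have hℓL : L ≤ ℓ := by
      have h5 : L ≤ (ℓ + 1) * Real.log 2 := by
        have h6 : Real.log (n : ℝ) ≤ Real.log ((2 : ℝ) ^ (ℓ + 1)) := by
          apply Real.log_le_log hn0'
          exact_mod_cast hℓ2.le
        rw [Real.log_pow] at h6
        push_cast at h6
        linarith
      have h6 : ((ℓ : ℝ) + 1) * Real.log 2 ≤ (ℓ + 1) * (7 / 10) := mul_le_mul_of_nonneg_left hlog2' (by positivity)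
      linarith
    have hLK : K / 2 ≤ L := by
      have h6 : Real.log ((2 : ℝ) ^ K) ≤ L := by
        rw [hLd]
        apply Real.log_le_log (by positivity)
        exact_mod_cast hn.1
      rw [Real.log_pow] at h6
      have := Real.log_two_gt_d9
      have h7 : (K : ℝ) * (1 / 2) ≤ K * Real.log 2 := mul_le_mul_of_nonneg_left (by linarith) hK0'.le
      linarith
    obtain ⟨y, hy⟩ : ∃ y, y = yy β n := ⟨_, rfl⟩
    rw [← hy]
    have hLβ : 1 ≤ L ^ β := Real.one_le_rpow (by linarith) hβ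
    have hy1 : (y : ℝ) ≤ L ^ β := by
      rw [hy]
      unfold yy
      rw [← hLd]
      exact Nat.floor_le (by linarith)
    have hy2 : L ^ β / 2 ≤ y := by
      have h5 : L ^ β < (y : ℝ) + 1 := by
        rw [hy]
        unfold yy
        rw [← hLd]
        exact Nat.lt_floor_add_one _
      have h6 : 1 ≤ y := by
        rw [hy]
        unfold yy
        rw [← hLd]
        exact Nat.le_floor (by exact_mod_cast hLβ)
      have h7 : (1 : ℝ) ≤ y := by exact_mod_cast h6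
      linarith
    have hLβ1 : L ^ β ≤ L := by
      calc L ^ β ≤ L ^ (1 : ℝ) := Real.rpow_le_rpow_of_exponent_le (by linarith) hβ1
        _ = L := Real.rpow_one _
    have hyL : (y : ℝ) ≤ L := hy1.trans hLβ1
    constructor
    · -- the number of the relevant indices
      obtain ⟨j0, hj0⟩ : ∃ j0 : ℕ, j0 = ⌈(1 - κ / 2) * (ℓ + 1)⌉₊ := ⟨_, rfl⟩
      have hj0' : (j0 : ℝ) ≤ (1 - κ / 2) * (ℓ + 1) + 1 := by
        rw [hj0]
        exact (Nat.ceil_lt_add_one (mul_nonneg (by linarith) (by positivity))).le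
      have hcard : ((ℓ - 2 - j0) * m : ℕ) ≤ (I n).card := by
        have e1 : ((Ico j0 (ℓ - 2)) ×ˢ (range m)).card = (ℓ - 2 - j0) * m := by
          rw [card_product, Nat.card_Ico, card_range]
        rw [← e1]
        apply card_le_card_of_injOn (fun q : ℕ × ℕ => if h : q.1 < 2 * K ∧ q.2 < m then
          ((⟨q.1, h.1⟩, ⟨q.2, h.2⟩) : Fin (2 * K) × Fin m) else ((⟨0, by omega⟩, ⟨0, by omega⟩) : Fin (2 * K) × Fin m))
        · intro q hq
          rw [mem_coe, mem_product, mem_Ico, mem_range] at hq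
          have h5 : q.1 < 2 * K ∧ q.2 < m := ⟨by omega, hq.2⟩
          simp only [dif_pos h5]
          rw [hI, mem_coe, mem_filter]
          refine ⟨mem_univ _, ?_, ?_⟩
          · simp only
            have h6 : (n : ℝ) ≤ 2 ^ ((ℓ : ℝ) + 1) := by
              have : (n : ℝ) ≤ (2 : ℝ) ^ (ℓ + 1) := by exact_mod_cast hℓ2.le
              rw [← Real.rpow_natCast] at this
              push_cast at this
              exact this
            calc (n : ℝ) ^ (1 - κ / 2) ≤ (2 ^ ((ℓ : ℝ) + 1)) ^ (1 - κ / 2) :=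
                  Real.rpow_le_rpow hn0'.le h6 (by linarith)
              _ = (2 : ℝ) ^ (((ℓ : ℝ) + 1) * (1 - κ / 2)) := by rw [← Real.rpow_mul (by norm_num)]
              _ ≤ (2 : ℝ) ^ ((q.1 : ℕ) : ℝ) := by
                  apply Real.rpow_le_rpow_of_exponent_le (by norm_num)
                  have h7 : (1 - κ / 2) * (ℓ + 1) ≤ (j0 : ℝ) := by rw [hj0]; exact Nat.le_ceil _
                  have h8 : (j0 : ℝ) ≤ q.1 := by exact_mod_cast hq.1.1
                  linarith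
              _ = _ := by rw [Real.rpow_natCast]
          · simp only
            rw [← hℓ]
            omega
        · intro q hq q' hq' hqq
          rw [mem_coe, mem_product, mem_Ico, mem_range] at hq hq'
          have h5 : q.1 < 2 * K ∧ q.2 < m := ⟨by omega, hq.2⟩
          have h6 : q'.1 < 2 * K ∧ q'.2 < m := ⟨by omega, hq'.2⟩
          simp only [dif_pos h5, dif_pos h6, Prod.mk.injEq, Fin.mk.injEq] at hqq
          exact Prod.ext hqq.1 hqq.2
      have hcard2 : κ / 4 * L * m ≤ ((I n).card : ℝ) := by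
        have h5 : (((ℓ - 2 - j0) * m : ℕ) : ℝ) ≤ (I n).card := by exact_mod_cast hcard
        refine le_trans ?_ h5
        push_cast
        apply mul_le_mul_of_nonneg_right _ (Nat.cast_nonneg _)
        have h6 : (ℓ : ℝ) - 2 - j0 ≤ ((ℓ - 2 - j0 : ℕ) : ℝ) := by
          have h7 : ℓ ≤ (ℓ - 2 - j0) + 2 + j0 := by omega
          have h8 : (ℓ : ℝ) ≤ ((ℓ - 2 - j0 : ℕ) : ℝ) + 2 + j0 := by exact_mod_cast h7
          linarith
        refine le_trans ?_ h6
        have h7 : (K : ℝ) ≤ ℓ := by exact_mod_cast hℓK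
        have h8 : 16 ≤ ℓ * κ := hK16.trans (mul_le_mul_of_nonneg_right h7 hκ.le)
        have h9 : κ / 4 * L ≤ κ / 4 * ℓ := mul_le_mul_of_nonneg_left hℓL (by positivity)
        have h10 : (1 - κ / 2) * (ℓ + 1) = ℓ + 1 - κ * ℓ / 2 - κ / 2 := by ring
        rw [h10] at hj0'
        linarith
      -- the size
      have hKL : L ^ (1 - β) / 2 ≤ (K : ℝ) ^ (1 - β) := by
        have h5 : L / 2 ≤ K := by
          have h6 : (ℓ : ℝ) ≤ 2 * K := by exact_mod_cast hℓK2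
          linarith
        calc L ^ (1 - β) / 2 ≤ L ^ (1 - β) / 2 ^ (1 - β) := by
              apply div_le_div_of_nonneg_left (by positivity) (by positivity)
              calc (2 : ℝ) ^ (1 - β) ≤ 2 ^ (1 : ℝ) := Real.rpow_le_rpow_of_exponent_le (by norm_num) (by linarith)
                _ = 2 := Real.rpow_one _
          _ = (L / 2) ^ (1 - β) := by rw [Real.div_rpow hL0.le (by norm_num)]
          _ ≤ _ := Real.rpow_le_rpow (by positivity) h5 (by linarith)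
      have h5 : C * (L ^ (1 - β) / 2) ≤ m := (mul_le_mul_of_nonneg_left hKL hC0.le).trans hm1
      have h6 : κ / 4 * L * (C * (L ^ (1 - β) / 2)) ≤ (I n).card :=
        (mul_le_mul_of_nonneg_left h5 (by positivity)).trans hcard2
      have h7 : c * (L ^ β / 2 / L) ≤ c * (y / L) := by
        apply mul_le_mul_of_nonneg_left _ hc.le
        exact div_le_div_of_nonneg_right hy2 hL0.le
      have h8 : κ / 4 * L * (C * (L ^ (1 - β) / 2)) * (c * (L ^ β / 2 / L)) ≤ (I n).card * (c * (y / L)) :=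
        mul_le_mul h6 h7 (by positivity) (Nat.cast_nonneg _)
      have h9 : κ / 4 * L * (C * (L ^ (1 - β) / 2)) * (c * (L ^ β / 2 / L)) = 12 * L := by
        have h10 : L ^ (1 - β) * L ^ β = L := by
          rw [← Real.rpow_add hL0]
          norm_num
        have h11 : κ / 4 * L * (C * (L ^ (1 - β) / 2)) * (c * (L ^ β / 2 / L)) =
            κ * c * C / 16 * (L ^ (1 - β) * L ^ β) := by
          field_simp
          ring
        rw [h11, h10, hC]
        field_simp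
        norm_num
      rw [h9] at h8
      linarith
    · intro q hq
      rw [hI, mem_filter, ← hℓ] at hq
      obtain ⟨-, hq1, hq2⟩ := hq
      -- the length
      have hmn : 2 * (m : ℝ) ≤ (n : ℝ) ^ (κ / 2) := by
        have h5 : (m : ℝ) ≤ (C + 1) * (2 * L) := hmK.trans (mul_le_mul_of_nonneg_left (by linarith) (by positivity))
        have h6 : 0 ≤ (C + 1) * L := by positivity
        linarith
      have hnκ : (n : ℝ) ^ (1 - κ / 2) = (n : ℝ) ^ (κ / 2) * (n : ℝ) ^ (1 - κ) := by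
        rw [← Real.rpow_add hn0']
        congr 1
        ring
      have hn1 : 1 ≤ (n : ℝ) ^ (1 - κ) := Real.one_le_rpow (by exact_mod_cast (by omega : 1 ≤ n)) (by linarith)
      have hm0r : (0 : ℝ) < m := by exact_mod_cast hm0
      have hH : (n : ℝ) ^ (1 - κ) ≤ ((2 ^ (q.1 : ℕ) / m : ℕ) : ℝ) := by
        have h5 : 2 * (m : ℝ) * (n : ℝ) ^ (1 - κ) ≤ 2 ^ (q.1 : ℕ) := by
          calc 2 * (m : ℝ) * (n : ℝ) ^ (1 - κ) ≤ (n : ℝ) ^ (κ / 2) * (n : ℝ) ^ (1 - κ) :=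
                mul_le_mul_of_nonneg_right hmn (by positivity)
            _ ≤ _ := by rw [← hnκ]; exact hq1
        have h6 : (2 ^ (q.1 : ℕ) : ℕ) < m * (2 ^ (q.1 : ℕ) / m + 1) := Nat.lt_mul_div_succ _ (by omega)
        have h7 : ((2 : ℝ) ^ (q.1 : ℕ)) < m * (((2 ^ (q.1 : ℕ) / m : ℕ) : ℝ) + 1) := by exact_mod_cast h6
        have h8 : m * (2 * (n : ℝ) ^ (1 - κ)) < m * (((2 ^ (q.1 : ℕ) / m : ℕ) : ℝ) + 1) := by linarith
        have h9 := lt_of_mul_lt_mul_left h8 hm0r.le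
        linarith
      have hH1 : 1 ≤ 2 ^ (q.1 : ℕ) / m := by
        have : (1 : ℝ) ≤ ((2 ^ (q.1 : ℕ) / m : ℕ) : ℝ) := hn1.trans hH
        exact_mod_cast this
      have hqℓ : 2 ^ ((q.1 : ℕ) + 3) ≤ n := (Nat.pow_le_pow_right (by norm_num) hq2).trans hℓ1
      have hq8 : 2 ^ ((q.1 : ℕ) + 3) = 4 * 2 ^ ((q.1 : ℕ) + 1) := by ring
      have hpos : 0 < 2 ^ (q.1 : ℕ) := by positivity
      have hq9 : 2 ^ ((q.1 : ℕ) + 1) = 2 * 2 ^ (q.1 : ℕ) := by ring
      refine ⟨hH1, ?_, by omega, ?_⟩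
      · -- `K ≤ 2 j`
        by_contra hcon
        rw [not_le] at hcon
        have h5 : (2 : ℝ) ^ (2 * (q.1 : ℕ)) < (2 : ℝ) ^ K := pow_lt_pow_right₀ (by norm_num) hcon
        have h6 : ((2 : ℝ) ^ K) ≤ n := by exact_mod_cast hn.1
        have h7 : (n : ℝ) ^ (1 / 2 : ℝ) ≤ 2 ^ (q.1 : ℕ) := by
          refine le_trans ?_ hq1
          apply Real.rpow_le_rpow_of_exponent_le (by exact_mod_cast (by omega : 1 ≤ n))
          linarith
        have h8 : (n : ℝ) ≤ (2 ^ (q.1 : ℕ)) ^ 2 := by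
          calc (n : ℝ) = ((n : ℝ) ^ (1 / 2 : ℝ)) ^ 2 := by
                rw [← Real.rpow_natCast, ← Real.rpow_mul hn0'.le]
                norm_num
            _ ≤ _ := pow_le_pow_left₀ (by positivity) h7 2
        rw [← pow_mul, mul_comm] at h8
        linarith
      · have hb := DD_bd (m := m) (q := ((q.1 : ℕ), (q.2 : ℕ))) hH1 q.2.2
        unfold DD
        rw [if_pos hH1]
        simp only at hb ⊢
        rw [Nat.card_Ioc, Nat.add_sub_cancel_left]
        exact h1 (2 ^ (q.1 : ℕ) + (q.2 : ℕ) * (2 ^ (q.1 : ℕ) / m)) (2 ^ (q.1 : ℕ) / m) y hH (by omega) hyL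
  -- the choice
  obtain ⟨b, hb1, hb2⟩ := exists_tuple (ι := Fin (2 * K) × Fin m) (fun q => DD m (q.1, q.2)) (fun q => DD_ne m _)
    (Icc (2 ^ K) (2 ^ (2 * K))) I (fun n q => (DD m (q.1, q.2)).filter (fun r => HT (yy β n) (n - r)))
    (fun n => c * (yy β n / Real.log n)) (by
      intro n hn q hq
      exact ⟨filter_subset _ _, ((hone n hn).2 q hq).2.2.2⟩) (by
      have h5 : ∀ n ∈ Icc (2 ^ K : ℕ) (2 ^ (2 * K)), Real.exp (-((I n).card * (c * (yy β n / Real.log n)) / 4)) ≤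
          1 / ((2 : ℝ) ^ K) ^ 3 := by
        intro n hn
        have h6 := (hone n hn).1
        rw [mem_Icc] at hn
        have hn0' : (0 : ℝ) < n := by
          have : 0 < 2 ^ K := by positivity
          exact_mod_cast (by omega : 0 < n)
        calc Real.exp (-((I n).card * (c * (yy β n / Real.log n)) / 4)) ≤ Real.exp (-(3 * Real.log n)) :=
              Real.exp_le_exp.2 (by linarith)
          _ = 1 / (n : ℝ) ^ 3 := by
              rw [Real.exp_neg, show (3 : ℝ) * Real.log n = (3 : ℕ) * Real.log n by norm_num, Real.exp_nat_mul,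
                Real.exp_log hn0', one_div]
          _ ≤ _ := by
              apply one_div_le_one_div_of_le (by positivity)
              apply pow_le_pow_left₀ (by positivity)
              exact_mod_cast hn.1
      refine lt_of_le_of_lt (sum_le_sum h5) ?_
      rw [sum_const, nsmul_eq_mul, Nat.card_Icc]
      have h6 : ((2 ^ (2 * K) + 1 - 2 ^ K : ℕ) : ℝ) ≤ ((2 : ℝ) ^ K) ^ 2 := by
        have h7 : 2 ^ (2 * K) + 1 - 2 ^ K ≤ 2 ^ (2 * K) := by
          have : 0 < 2 ^ K := by positivity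
          have : 0 < 2 ^ (2 * K) := by positivity
          omega
        have h8 : ((2 ^ (2 * K) + 1 - 2 ^ K : ℕ) : ℝ) ≤ ((2 ^ (2 * K) : ℕ) : ℝ) := by exact_mod_cast h7
        refine h8.trans (le_of_eq ?_)
        push_cast
        rw [← pow_mul, mul_comm]
      have h7 : (1 : ℝ) < 2 ^ K := one_lt_pow₀ (by norm_num) (by omega)
      calc ((2 ^ (2 * K) + 1 - 2 ^ K : ℕ) : ℝ) * (1 / ((2 : ℝ) ^ K) ^ 3) ≤ ((2 : ℝ) ^ K) ^ 2 * (1 / ((2 : ℝ) ^ K) ^ 3) :=
            mul_le_mul_of_nonneg_right h6 (by positivity)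
        _ = 1 / (2 : ℝ) ^ K := by field_simp
        _ < 1 := by rw [div_lt_one (by positivity)]; exact h7)
  refine ⟨((univ : Finset (Fin (2 * K) × Fin m)).filter (fun q => K ≤ 2 * (q.1 : ℕ) ∧ 1 ≤ 2 ^ (q.1 : ℕ) / m)).image b, ?_, ?_, ?_⟩
  · have h5 : (((univ : Finset (Fin (2 * K) × Fin m)).filter (fun q => K ≤ 2 * (q.1 : ℕ) ∧ 1 ≤ 2 ^ (q.1 : ℕ) / m)).image b).card ≤
        2 * K * m := by
      refine card_image_le.trans ((card_filter_le _ _).trans (le_of_eq ?_))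
      rw [card_univ, Fintype.card_prod, Fintype.card_fin, Fintype.card_fin]
    have h6 : ((((univ : Finset (Fin (2 * K) × Fin m)).filter (fun q => K ≤ 2 * (q.1 : ℕ) ∧ 1 ≤ 2 ^ (q.1 : ℕ) / m)).image b).card : ℝ) ≤
        2 * K * m := by exact_mod_cast h5
    refine h6.trans ?_
    calc (2 : ℝ) * K * m ≤ 2 * K * ((C + 1) * (K : ℝ) ^ (1 - β)) := mul_le_mul_of_nonneg_left hm2 (by positivity)
      _ = 2 * (C + 1) * ((K : ℝ) ^ (1 : ℝ) * (K : ℝ) ^ (1 - β)) := by rw [Real.rpow_one]; ring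
      _ = _ := by
          rw [← Real.rpow_add hK0']
          congr 2
          ring
  · intro r hr
    rw [mem_image] at hr
    obtain ⟨q, hq, rfl⟩ := hr
    rw [mem_filter] at hq
    have h5 := hb1 q
    unfold DD at h5
    rw [if_pos hq.2.2, mem_Ioc] at h5
    have h6 : 2 ^ (q.1 : ℕ) ≤ b q := by
      have : 0 ≤ (q.2 : ℕ) * (2 ^ (q.1 : ℕ) / m) := Nat.zero_le _
      simp only at h5
      omega
    calc 2 ^ K ≤ 2 ^ (2 * (q.1 : ℕ)) := Nat.pow_le_pow_right (by norm_num) hq.2.1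
      _ = (2 ^ (q.1 : ℕ)) ^ 2 := by rw [← pow_mul, mul_comm]
      _ ≤ _ := Nat.pow_le_pow_left h6 2
  · intro n hn1 hn2
    have hn : n ∈ Icc (2 ^ K) (2 ^ (2 * K)) := mem_Icc.2 ⟨hn1, hn2⟩
    obtain ⟨g1, g2⟩ := hone n hn
    have g3 := hb2 n hn
    have hn0' : (1 : ℝ) ≤ n := by
      have : 0 < 2 ^ K := by positivity
      exact_mod_cast (by omega : 1 ≤ n)
    have hlog := Real.log_nonneg hn0'
    have g4 : ((I n).filter (fun q => b q ∈ (DD m (q.1, q.2)).filter (fun r => HT (yy β n) (n - r)))).card ≤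
        ((((univ : Finset (Fin (2 * K) × Fin m)).filter (fun q => K ≤ 2 * (q.1 : ℕ) ∧ 1 ≤ 2 ^ (q.1 : ℕ) / m)).image b).filter
          (fun r => r < n ∧ HT (yy β n) (n - r))).card := by
      apply card_le_card_of_injOn b
      · intro q hq
        rw [mem_coe, mem_filter, mem_filter] at hq
        obtain ⟨h5, h6, h7, h8⟩ := g2 q hq.1
        rw [mem_coe, mem_filter, mem_image]
        refine ⟨⟨q, mem_filter.2 ⟨mem_univ _, h6, h5⟩, rfl⟩, ?_, hq.2.2⟩
        have h9 := DD_bd (m := m) (q := ((q.1 : ℕ), (q.2 : ℕ))) h5 q.2.2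
        have h10 := hb1 q
        unfold DD at h10
        rw [if_pos h5, mem_Ioc] at h10
        simp only at h9 h10
        omega
      · intro q hq q' hq' hqq
        rw [mem_coe, mem_filter] at hq hq'
        have h5 := (g2 q hq.1).1
        have h6 := (g2 q' hq'.1).1
        have h7 := DD_inj (m := m) (q := ((q.1 : ℕ), (q.2 : ℕ))) (q' := ((q'.1 : ℕ), (q'.2 : ℕ))) h5 h6 q.2.2 q'.2.2
          (r := b q) (hb1 q) (by rw [hqq]; exact hb1 q')
        rw [Prod.mk.injEq] at h7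
        exact Prod.ext (Fin.ext h7.1) (Fin.ext h7.2)
    have g5 : (((I n).filter (fun q => b q ∈ (DD m (q.1, q.2)).filter (fun r => HT (yy β n) (n - r)))).card : ℝ) ≤
        ((((univ : Finset (Fin (2 * K) × Fin m)).filter (fun q => K ≤ 2 * (q.1 : ℕ) ∧ 1 ≤ 2 ^ (q.1 : ℕ) / m)).image b).filter
          (fun r => r < n ∧ HT (yy β n) (n - r))).card := by exact_mod_cast g4
    linarith

end Pool.Agent.NH15.AC
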