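import Pool.Agent.NH15.AC.A2

set_option autoImplicit false

/-! The infinite set. -/

namespace Pool.Agent.NH15.AC

open Finset Filter
open Pool.Agent.W301.SS (pn pn_mono pn_le pn_eq ev_L ev_log)
open Pool.Agent.NH15.UT (HT)

lemma geom_le (γ : ℝ) (hγ : 1 ≤ γ) (I : ℕ) : ∑ i ∈ range (I + 1), ((2 : ℝ) ^ i) ^ γ ≤ 2 * ((2 : ℝ) ^ I) ^ γ := by
  induction I with
  | zero => simp
  | succ I ih =>
    rw [sum_range_succ]
    have h1 : 2 * ((2 : ℝ) ^ I) ^ γ ≤ ((2 : ℝ) ^ (I + 1)) ^ γ := by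
      rw [pow_succ, Real.mul_rpow (by positivity) (by norm_num), mul_comm]
      apply mul_le_mul_of_nonneg_left _ (by positivity)
      calc (2 : ℝ) = 2 ^ (1 : ℝ) := (Real.rpow_one 2).symm
        _ ≤ _ := Real.rpow_le_rpow_of_exponent_le (by norm_num) hγ
    linarith

theorem complement (β : ℝ) (hβ : 0 ≤ β) (hβ1 : β ≤ 1) : ∃ R : Set ℕ, ∃ C : ℝ, 0 < C ∧
    (∀ x : ℕ, 2 ≤ x → (((R ∩ Set.Iic x).ncard : ℕ) : ℝ) ≤ C * Real.log x ^ (2 - β)) ∧
    ∀ᶠ n : ℕ in atTop, Real.log n ≤ (({r | r ∈ R ∧ r < n ∧ HT (yy β n) (n - r)}.ncard : ℕ) : ℝ) := by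
  classical
  obtain ⟨C, hC, h⟩ := scale β hβ hβ1
  obtain ⟨K0, hK0⟩ := eventually_atTop.1 h
  choose! R hR1 hR2 hR3 using hK0
  obtain ⟨U, hU⟩ : ∃ U : Set ℕ, U = {r | ∃ i : ℕ, K0 ≤ 2 ^ i ∧ r ∈ R (2 ^ i)} := ⟨_, rfl⟩
  have hγ : 1 ≤ 2 - β := by linarith
  refine ⟨U, C * 2 * 4 ^ (2 - β), by positivity, ?_, ?_⟩
  · intro x hx
    have hxr : (2 : ℝ) ≤ x := by exact_mod_cast hx
    have hlog : 0 < Real.log x := Real.log_pos (by linarith)
    obtain ⟨I, hI⟩ : ∃ I : ℕ, I = Nat.log 2 (2 * Nat.log 2 x) := ⟨_, rfl⟩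
    have hl1 : 1 ≤ Nat.log 2 x := by
      apply Nat.le_log_of_pow_le (by norm_num)
      simpa using hx
    have hI1 : 2 ^ I ≤ 2 * Nat.log 2 x := by
      rw [hI]
      exact Nat.pow_log_le_self 2 (by omega)
    have hsub : U ∩ Set.Iic x ⊆ (((range (I + 1)).filter (fun i => K0 ≤ 2 ^ i)).biUnion fun i => R (2 ^ i) : Finset ℕ) := by
      rintro r ⟨hr1, hr2⟩
      rw [hU] at hr1
      obtain ⟨i, hi, hr⟩ := hr1
      rw [mem_coe, mem_biUnion]
      refine ⟨i, mem_filter.2 ⟨?_, hi⟩, hr⟩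
      rw [mem_range, Nat.lt_succ_iff, hI]
      apply Nat.le_log_of_pow_le (by norm_num)
      have h1 := hR2 (2 ^ i) hi r hr
      have h2 : r ^ 2 ≤ x ^ 2 := Nat.pow_le_pow_left hr2 2
      have h3 : x < 2 ^ (Nat.log 2 x + 1) := Nat.lt_pow_succ_log_self (by norm_num) x
      by_contra hcon
      rw [not_le] at hcon
      -- `2 ^ i ≥ 2 log_2 x + 1`
      have h4 : 2 ^ i % 2 = 0 ∨ i = 0 := by
        rcases Nat.eq_zero_or_pos i with h | h
        · exact Or.inr h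
        · left
          obtain ⟨j, rfl⟩ := Nat.exists_eq_succ_of_ne_zero h.ne'
          rw [Nat.succ_eq_add_one, pow_succ]
          omega
      have h5 : 2 * (Nat.log 2 x + 1) ≤ 2 ^ i := by
        rcases h4 with h4 | h4
        · omega
        · rw [h4] at hcon
          simp at hcon
          omega
      have h6 : x ^ 2 < 2 ^ (2 * (Nat.log 2 x + 1)) := by
        calc x ^ 2 < (2 ^ (Nat.log 2 x + 1)) ^ 2 := Nat.pow_lt_pow_left h3 (by norm_num)
          _ = _ := by rw [← pow_mul, mul_comm]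
      have h7 : 2 ^ (2 * (Nat.log 2 x + 1)) ≤ 2 ^ (2 ^ i) := Nat.pow_le_pow_right (by norm_num) h5
      omega
    have h1 : (U ∩ Set.Iic x).ncard ≤ (((range (I + 1)).filter (fun i => K0 ≤ 2 ^ i)).biUnion fun i => R (2 ^ i)).card := by
      rw [← Set.ncard_coe_finset]
      exact Set.ncard_le_ncard hsub (Finset.finite_toSet _)
    have h2 : (((U ∩ Set.Iic x).ncard : ℕ) : ℝ) ≤ ∑ i ∈ (range (I + 1)).filter (fun i => K0 ≤ 2 ^ i), ((R (2 ^ i)).card : ℝ) := by
      exact_mod_cast h1.trans card_biUnion_le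
    refine h2.trans ?_
    calc ∑ i ∈ (range (I + 1)).filter (fun i => K0 ≤ 2 ^ i), ((R (2 ^ i)).card : ℝ) ≤
          ∑ i ∈ (range (I + 1)).filter (fun i => K0 ≤ 2 ^ i), C * ((2 : ℝ) ^ i) ^ (2 - β) := by
          apply sum_le_sum
          intro i hi
          rw [mem_filter] at hi
          have := hR1 (2 ^ i) hi.2
          push_cast at this
          exact this
      _ ≤ ∑ i ∈ range (I + 1), C * ((2 : ℝ) ^ i) ^ (2 - β) := by
          apply sum_le_sum_of_subset_of_nonneg (filter_subset _ _)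
          intro _ _ _
          positivity
      _ = C * ∑ i ∈ range (I + 1), ((2 : ℝ) ^ i) ^ (2 - β) := by rw [mul_sum]
      _ ≤ C * (2 * ((2 : ℝ) ^ I) ^ (2 - β)) := mul_le_mul_of_nonneg_left (geom_le _ hγ I) hC.le
      _ ≤ C * (2 * (4 * Real.log x) ^ (2 - β)) := by
          apply mul_le_mul_of_nonneg_left _ hC.le
          apply mul_le_mul_of_nonneg_left _ (by norm_num)
          apply Real.rpow_le_rpow (by positivity) _ (by linarith)
          have h3 : ((2 : ℝ) ^ I) ≤ 2 * Nat.log 2 x := by exact_mod_cast hI1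
          have h4 : (Nat.log 2 x : ℝ) * Real.log 2 ≤ Real.log x := by
            rw [← Real.log_pow]
            apply Real.log_le_log (by positivity)
            exact_mod_cast Nat.pow_log_le_self 2 (by omega)
          have h5 := Real.log_two_gt_d9
          have h6 : (Nat.log 2 x : ℝ) * (1 / 2) ≤ Nat.log 2 x * Real.log 2 :=
            mul_le_mul_of_nonneg_left (by linarith) (Nat.cast_nonneg _)
          linarith
      _ = _ := by
          rw [Real.mul_rpow (by norm_num) hlog.le]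
          ring
  · filter_upwards [eventually_ge_atTop (2 ^ (2 * K0 + 2))] with n hn
    obtain ⟨ℓ, hℓ⟩ : ∃ ℓ, ℓ = Nat.log 2 n := ⟨_, rfl⟩
    have hnpos : n ≠ 0 := by
      have : 0 < 2 ^ (2 * K0 + 2) := by positivity
      omega
    have hℓ1 : 2 ^ ℓ ≤ n := by rw [hℓ]; exact Nat.pow_log_le_self 2 hnpos
    have hℓ2 : n < 2 ^ (ℓ + 1) := by rw [hℓ]; exact Nat.lt_pow_succ_log_self (by norm_num) n
    have hℓ3 : 2 * K0 + 2 ≤ ℓ := by
      rw [hℓ]
      exact Nat.le_log_of_pow_le (by norm_num) hn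
    obtain ⟨i, hi⟩ : ∃ i, i = Nat.log 2 ℓ := ⟨_, rfl⟩
    have hi1 : 2 ^ i ≤ ℓ := by rw [hi]; exact Nat.pow_log_le_self 2 (by omega)
    have hi2 : ℓ < 2 ^ (i + 1) := by rw [hi]; exact Nat.lt_pow_succ_log_self (by norm_num) ℓ
    have hi3 : 2 ^ (i + 1) = 2 * 2 ^ i := by ring
    have hKi : K0 ≤ 2 ^ i := by omega
    have g1 := hR3 (2 ^ i) hKi n ((Nat.pow_le_pow_right (by norm_num) hi1).trans hℓ1)
      (hℓ2.le.trans (Nat.pow_le_pow_right (by norm_num) (by omega)))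
    refine g1.trans ?_
    apply Nat.cast_le.2
    rw [← Set.ncard_coe_finset]
    apply Set.ncard_le_ncard
    · intro r hr
      rw [mem_coe, mem_filter] at hr
      refine ⟨?_, hr.2.1, hr.2.2⟩
      rw [hU]
      exact ⟨i, hKi, hr.1⟩
    · apply Set.Finite.subset (Set.finite_Iio n)
      rintro r ⟨-, hr, -⟩
      exact hr

end Pool.Agent.NH15.AC
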